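import Mathlib

/-!
A meet-continuous dcpo whose Scott space is core compact but not sober (a negative answer to the
question of Jia, MP_1e3442_gt).

`El` is a dcpo-semilattice modelled on a compact semilattice without small subsemilattices: an
element is a pair `(F, t)` where, for every scale `r`, only the blocks `b < 2 ^ r` may be non-empty,
every slice `F r b` is a finite set of labels or the set of all labels, and the number of non-empty
blocks at scale `r` is eventually at most `s ^ r` for every `s > t`, where `1 ≤ t < 2`. The order is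
reverse inclusion. The labels form a W-type, so that a label can code any sequence in `El`, the
labels occurring in that sequence being its children. `L` (the elements satisfying `InL`) consists
of elements marked by such labels; by well-foundedness of the labels `L` is closed under directed
suprema, while the top of `El` is not in `L` although it is in the closure of `L`.
-/

set_option autoImplicit false

open Set Filter

namespace Pool.Agent.H81.Jia

/-- Labels: a W-type with countable branching. -/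
inductive Lab : Type
  | base : Lab
  | node : Option ℕ → (ℕ → ℕ → ℕ → Option (Set ℕ)) → (ℕ → ℝ) → (ℕ → Lab) → Lab

inductive Child : Lab → Lab → Prop
  | mk (tag : Option ℕ) (P : ℕ → ℕ → ℕ → Option (Set ℕ)) (t : ℕ → ℝ) (e : ℕ → Lab) (i : ℕ) :
      Child (e i) (Lab.node tag P t e)

theorem child_wf : WellFounded Child := by
  constructor
  intro a
  induction a with
  | base =>
    constructor
    intro y h
    cases h
  | node tag P t e ih =>
    constructor
    intro y h
    cases h with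
    | mk _ _ _ _ i => exact ih i

def supp (F : ℕ → ℕ → Set Lab) (r : ℕ) : Set ℕ := {b | (F r b).Nonempty}

@[ext]
structure El where
  F : ℕ → ℕ → Set Lab
  t : ℝ
  fin : ∀ r b, (F r b).Finite ∨ F r b = Set.univ
  out : ∀ r b, 2 ^ r ≤ b → F r b = ∅
  one_le : 1 ≤ t
  lt_two : t < 2
  cost : ∀ s, t < s → ∀ᶠ r in atTop, ((supp F r).ncard : ℝ) ≤ s ^ r

instance : PartialOrder El where
  le x y := (∀ r b, y.F r b ⊆ x.F r b) ∧ y.t ≤ x.t
  le_refl x := ⟨fun _ _ => subset_rfl, le_rfl⟩
  le_trans x y z h1 h2 := ⟨fun r b => (h2.1 r b).trans (h1.1 r b), h2.2.trans h1.2⟩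
  le_antisymm x y h1 h2 := by
    apply El.ext
    · funext r b
      exact Subset.antisymm (h2.1 r b) (h1.1 r b)
    · exact le_antisymm h2.2 h1.2

theorem le_def (x y : El) : x ≤ y ↔ (∀ r b, y.F r b ⊆ x.F r b) ∧ y.t ≤ x.t := Iff.rfl

theorem supp_sub_Iio (x : El) (r : ℕ) : supp x.F r ⊆ Set.Iio (2 ^ r) := by
  intro b hb
  by_contra h
  have := x.out r b (by simpa using h)
  rw [supp, mem_ofPred_eq, this] at hb
  exact Set.not_nonempty_empty hb

theorem supp_fin (x : El) (r : ℕ) : (supp x.F r).Finite :=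
  (Set.finite_Iio _).subset (supp_sub_Iio x r)

theorem supp_mono {F G : ℕ → ℕ → Set Lab} {r : ℕ} (h : ∀ b, F r b ⊆ G r b) :
    supp F r ⊆ supp G r := by
  intro b hb
  exact hb.mono (h b)

theorem ev_pow {s s' : ℝ} (hs : 1 ≤ s) (h : s < s') :
    ∀ᶠ r : ℕ in atTop, ((r : ℝ) + 1) * (s ^ r + 1) ≤ s' ^ r := by
  have hs0 : 0 < s := by linarith
  have hq : 1 < s' / s := by
    rw [one_lt_div hs0]; exact h
  have h1 := tendsto_pow_const_div_const_pow_of_one_lt 1 hq
  have h2 : ∀ᶠ n : ℕ in atTop, (n : ℝ) ^ 1 / (s' / s) ^ n < 1 / 4 :=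
    h1.eventually (gt_mem_nhds (by norm_num))
  filter_upwards [h2, eventually_ge_atTop 1] with r hr hr1
  have hqpos : 0 < (s' / s) ^ r := by positivity
  rw [pow_one, div_lt_iff₀ hqpos] at hr
  have hr1' : (1 : ℝ) ≤ r := by exact_mod_cast hr1
  have h3 : s' ^ r = (s' / s) ^ r * s ^ r := by
    rw [div_pow]; field_simp
  have h4 : 1 ≤ s ^ r := one_le_pow₀ hs
  rw [h3]
  calc ((r : ℝ) + 1) * (s ^ r + 1) ≤ (2 * r) * (2 * s ^ r) := by
        apply mul_le_mul <;> linarith
    _ = (4 * r) * s ^ r := by ring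
    _ ≤ (s' / s) ^ r * s ^ r := by
        apply mul_le_mul_of_nonneg_right _ (by positivity)
        linarith

/-- good branches -/
def good (x : El) : Set (ℕ → ℕ) :=
  {f | (∀ r, f r < 2 ^ r) ∧ ∀ᶠ r in atTop, (x.F r (f r)).Finite}

theorem exists_mid (x : El) : ∃ s, x.t < s ∧ s < 2 := exists_between x.lt_two

theorem good_nonempty (x : El) : (good x).Nonempty := by
  classical
  obtain ⟨s, hs1, hs2⟩ := exists_mid x
  have hc := x.cost s hs1
  have h1 : ∀ᶠ r in atTop, ∃ b, b < 2 ^ r ∧ x.F r b = ∅ := by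
    filter_upwards [hc, eventually_ge_atTop 1] with r hr hr1
    by_contra hcon
    push Not at hcon
    have hsub : Set.Iio (2 ^ r) ⊆ supp x.F r := by
      intro b hb
      exact hcon b hb
    have h2 := Set.ncard_le_ncard hsub (supp_fin x r)
    have h3 : (Set.Iio (2 ^ r) : Set ℕ).ncard = 2 ^ r := by
      rw [Set.ncard_eq_toFinset_card']
      simp
    rw [h3] at h2
    have h4 : ((2 : ℝ)) ^ r ≤ s ^ r := by
      refine le_trans ?_ hr
      exact_mod_cast h2
    have h5 : s ^ r < 2 ^ r := by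
      apply pow_lt_pow_left₀ hs2 _ (by omega)
      have := x.one_le
      linarith
    linarith
  refine ⟨fun r => if h : ∃ b, b < 2 ^ r ∧ x.F r b = ∅ then h.choose else 0, ?_, ?_⟩
  · intro r
    by_cases h : ∃ b, b < 2 ^ r ∧ x.F r b = ∅
    · simp only [dif_pos h]
      exact h.choose_spec.1
    · simp only [dif_neg h]
      positivity
  · filter_upwards [h1] with r h
    simp only [dif_pos h]
    rw [h.choose_spec.2]
    exact Set.finite_empty

theorem wfw : WellFounded (WellOrderingRel : (ℕ → ℕ) → (ℕ → ℕ) → Prop) :=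
  WellOrderingRel.isWellOrder.wf

noncomputable def kk (x : El) : ℕ → ℕ := wfw.min (good x) (good_nonempty x)

theorem kk_mem (x : El) : kk x ∈ good x := wfw.min_mem _ _

theorem good_mono {x y : El} (h : x ≤ y) : good x ⊆ good y := by
  intro f hf
  refine ⟨hf.1, ?_⟩
  filter_upwards [hf.2] with r hr
  exact hr.subset (h.1 r _)

theorem kk_mono {x y : El} (h : x ≤ y) : ¬ WellOrderingRel (kk x) (kk y) :=
  wfw.not_lt_min (good y) (good_mono h (kk_mem x))

/-- `add x a N = x ⊓ D_N` where `D_N` has the single label `a` on the branch `kk x` above `N`. -/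
noncomputable def addF (x : El) (a : Lab) (N : ℕ) : ℕ → ℕ → Set Lab :=
  fun r b => x.F r b ∪ {β | β = a ∧ N ≤ r ∧ b = kk x r}

theorem supp_addF_lt (x : El) (a : Lab) (N r : ℕ) (h : r < N) (b : ℕ) :
    addF x a N r b = x.F r b := by
  unfold addF
  ext β
  simp only [mem_union, mem_ofPred_eq]
  constructor
  · rintro (h1 | ⟨_, h2, _⟩)
    · exact h1
    · omega
  · intro h1; exact Or.inl h1

theorem sz_addF (x : El) (a : Lab) (N r : ℕ) :
    (supp (addF x a N) r).ncard ≤ (supp x.F r).ncard + 1 := by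
  have hsub : supp (addF x a N) r ⊆ insert (kk x r) (supp x.F r) := by
    intro b hb
    obtain ⟨β, hβ⟩ := hb
    rcases hβ with h | ⟨_, _, h⟩
    · exact Or.inr ⟨β, h⟩
    · exact Or.inl h
  calc (supp (addF x a N) r).ncard ≤ (insert (kk x r) (supp x.F r)).ncard :=
        Set.ncard_le_ncard hsub ((supp_fin x r).insert _)
    _ ≤ (supp x.F r).ncard + 1 := Set.ncard_insert_le _ _

noncomputable def add (x : El) (a : Lab) (N : ℕ) : El where
  F := addF x a N
  t := x.t
  fin := by
    intro r b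
    have h1 : ({β | β = a ∧ N ≤ r ∧ b = kk x r} : Set Lab).Finite :=
      (Set.finite_singleton a).subset (by rintro β ⟨h, _⟩; exact h)
    rcases x.fin r b with h | h
    · exact Or.inl (h.union h1)
    · right
      unfold addF
      rw [h, univ_union]
  out := by
    intro r b hb
    unfold addF
    rw [x.out r b hb, empty_union]
    ext β
    simp only [mem_ofPred_eq, mem_empty_iff_false, iff_false]
    rintro ⟨_, _, h⟩
    have := (kk_mem x).1 r
    omega
  one_le := x.one_le
  lt_two := x.lt_two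
  cost := by
    intro s hs
    obtain ⟨s1, h1, h2⟩ := exists_between hs
    have h3 : 1 ≤ s1 := x.one_le.trans h1.le
    filter_upwards [x.cost s1 h1, ev_pow h3 h2] with r hr1 hr2
    have h4 : ((supp (addF x a N) r).ncard : ℝ) ≤ (supp x.F r).ncard + 1 := by
      exact_mod_cast sz_addF x a N r
    have h5 : 0 ≤ s1 ^ r + 1 := by positivity
    nlinarith [Nat.cast_nonneg (α := ℝ) r]

theorem add_le (x : El) (a : Lab) (N : ℕ) : add x a N ≤ x :=
  ⟨fun _ _ => subset_union_left, le_rfl⟩

theorem good_add (x : El) (a : Lab) (N : ℕ) : good (add x a N) = good x := by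
  apply Subset.antisymm
  · exact good_mono (add_le x a N)
  · intro f hf
    refine ⟨hf.1, ?_⟩
    filter_upwards [hf.2] with r hr
    apply hr.union
    exact (Set.finite_singleton a).subset (by rintro β ⟨h, _⟩; exact h)

theorem kk_add (x : El) (a : Lab) (N : ℕ) : kk (add x a N) = kk x := by
  unfold kk
  simp only [good_add]

theorem add_mono {x y : El} (h : x ≤ y) (hk : kk x = kk y) (a : Lab) {M N : ℕ} (hMN : M ≤ N) :
    add x a M ≤ add y a N := by
  refine ⟨?_, h.2⟩
  intro r b β hβ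
  rcases hβ with h1 | ⟨h1, h2, h3⟩
  · exact Or.inl (h.1 r b h1)
  · exact Or.inr ⟨h1, hMN.trans h2, by rw [hk]; exact h3⟩

/-- all labels occurring in finite slices of the sequence `d` -/
def labs (d : ℕ → El) : Set Lab :=
  ⋃ (j : ℕ) (r : ℕ) (b : ℕ) (_ : ((d j).F r b).Finite), (d j).F r b

theorem labs_countable (d : ℕ → El) : (labs d).Countable := by
  unfold labs
  apply Set.countable_iUnion; intro j
  apply Set.countable_iUnion; intro r
  apply Set.countable_iUnion; intro b
  apply Set.countable_iUnion; intro h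
  exact h.countable

theorem exists_enum (d : ℕ → El) : ∃ e : ℕ → Lab, insert Lab.base (labs d) = Set.range e := by
  have h := ((labs_countable d).insert Lab.base).exists_eq_range (Set.insert_nonempty _ _)
  exact h

noncomputable def enum (d : ℕ → El) : ℕ → Lab := (exists_enum d).choose

theorem enum_spec (d : ℕ → El) : insert Lab.base (labs d) = Set.range (enum d) :=
  (exists_enum d).choose_spec

open Classical in
noncomputable def lab (tag : Option ℕ) (d : ℕ → El) : Lab :=
  Lab.node tag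
    (fun j r b => if ((d j).F r b).Finite then some ((enum d) ⁻¹' ((d j).F r b)) else none)
    (fun j => (d j).t) (enum d)

theorem mem_range_enum {d : ℕ → El} {j r b : ℕ} (h : ((d j).F r b).Finite) {β : Lab}
    (hβ : β ∈ (d j).F r b) : β ∈ Set.range (enum d) := by
  rw [← enum_spec]
  right
  unfold labs
  simp only [mem_iUnion]
  exact ⟨j, r, b, h, hβ⟩

theorem lab_child {tag : Option ℕ} {d : ℕ → El} {j r b : ℕ} (h : ((d j).F r b).Finite) {β : Lab}
    (hβ : β ∈ (d j).F r b) : Child β (lab tag d) := by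
  obtain ⟨i, hi⟩ := mem_range_enum h hβ
  rw [← hi]
  exact Child.mk _ _ _ _ i

theorem lab_inj {tag tag' : Option ℕ} {d d' : ℕ → El} (h : lab tag d = lab tag' d') :
    tag = tag' ∧ d = d' := by
  unfold lab at h
  injection h with h1 h2 h3 h4
  refine ⟨h1, ?_⟩
  funext j
  apply El.ext
  · funext r b
    have h5 := congrFun (congrFun (congrFun h2 j) r) b
    by_cases hf : ((d j).F r b).Finite
    · by_cases hf' : ((d' j).F r b).Finite
      · rw [if_pos hf, if_pos hf'] at h5
        have h6 := Option.some.inj h5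
        have h7 : enum d '' (enum d ⁻¹' (d j).F r b) = enum d' '' (enum d' ⁻¹' (d' j).F r b) := by
          rw [h6, h4]
        rw [Set.image_preimage_eq_of_subset (fun β hβ => mem_range_enum hf hβ),
          Set.image_preimage_eq_of_subset (fun β hβ => mem_range_enum hf' hβ)] at h7
        exact h7
      · rw [if_pos hf, if_neg hf'] at h5
        exact absurd h5 (by simp)
    · by_cases hf' : ((d' j).F r b).Finite
      · rw [if_neg hf, if_pos hf'] at h5
        exact absurd h5 (by simp)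
      · rw [((d j).fin r b).resolve_left hf, ((d' j).fin r b).resolve_left hf']
  · exact congrFun h3 j

/-- The counterexample. -/
inductive InL : El → Prop
  | single (y : El) (N : ℕ) : InL (add y (lab (some N) (fun _ => y)) N)
  | seq (d : ℕ → El) (l : El) (hl : InL l) (hm : Monotone d) (hs : IsLUB (Set.range d) l)
      (hk : ∀ j, kk (d j) = kk (d 0)) (j : ℕ) : InL (add (d j) (lab none d) j)

/-! ### suprema in `El` -/

noncomputable def supD (D : Set El) (hne : D.Nonempty) : El where
  F := fun r b => ⋂ d ∈ D, d.F r b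
  t := sInf (El.t '' D)
  fin := by
    intro r b
    by_cases h : ∃ d ∈ D, (d.F r b).Finite
    · obtain ⟨d, hd, hf⟩ := h
      exact Or.inl (hf.subset (Set.biInter_subset_of_mem hd))
    · push Not at h
      right
      rw [Set.eq_univ_iff_forall]
      intro β
      simp only [mem_iInter]
      intro d hd
      rw [(d.fin r b).resolve_left (h d hd)]
      trivial
  out := by
    intro r b hb
    obtain ⟨d, hd⟩ := hne
    apply Set.eq_empty_of_subset_empty
    rw [← d.out r b hb]
    exact Set.biInter_subset_of_mem hd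
  one_le := by
    apply le_csInf (hne.image _)
    rintro _ ⟨d, _, rfl⟩
    exact d.one_le
  lt_two := by
    obtain ⟨d, hd⟩ := hne
    refine lt_of_le_of_lt (csInf_le ⟨1, ?_⟩ (Set.mem_image_of_mem _ hd)) d.lt_two
    rintro _ ⟨d, _, rfl⟩
    exact d.one_le
  cost := by
    intro s hs
    obtain ⟨_, ⟨d, hd, rfl⟩, h2⟩ := exists_lt_of_csInf_lt (hne.image _) hs
    filter_upwards [d.cost s h2] with r hr
    refine le_trans ?_ hr
    exact_mod_cast Set.ncard_le_ncard (supp_mono fun b => Set.biInter_subset_of_mem hd)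
      (supp_fin d r)

theorem isLUB_supD (D : Set El) (hne : D.Nonempty) : IsLUB D (supD D hne) := by
  have hb : BddBelow (El.t '' D) := by
    refine ⟨1, ?_⟩
    rintro _ ⟨d, _, rfl⟩
    exact d.one_le
  constructor
  · intro d hd
    exact ⟨fun r b => Set.biInter_subset_of_mem hd, csInf_le hb (Set.mem_image_of_mem _ hd)⟩
  · intro w hw
    refine ⟨?_, ?_⟩
    · intro r b β hβ
      simp only [supD, mem_iInter]
      intro d hd
      exact (hw hd).1 r b hβ
    · apply le_csInf (hne.image _)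
      rintro _ ⟨d, hd, rfl⟩
      exact (hw hd).2

theorem lub_F {D : Set El} (hne : D.Nonempty) {u : El} (hu : IsLUB D u) (r b : ℕ) :
    u.F r b = ⋂ d ∈ D, d.F r b := by
  rw [hu.unique (isLUB_supD D hne)]
  rfl

theorem lub_t {D : Set El} (hne : D.Nonempty) {u : El} (hu : IsLUB D u) {s : ℝ} (hs : u.t < s) :
    ∃ d ∈ D, d.t < s := by
  rw [hu.unique (isLUB_supD D hne)] at hs
  obtain ⟨_, ⟨d, hd, rfl⟩, h2⟩ := exists_lt_of_csInf_lt (hne.image _) hs
  exact ⟨d, hd, h2⟩

theorem dir_finite {D : Set El} (hD : DirectedOn (· ≤ ·) D) {ι : Type*} (s : Finset ι)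
    (P : ι → El → Prop) (hup : ∀ i x y, x ≤ y → P i x → P i y)
    (h : ∀ i ∈ s, ∃ d ∈ D, P i d) : ∀ d0 ∈ D, ∃ d ∈ D, d0 ≤ d ∧ ∀ i ∈ s, P i d := by
  classical
  induction s using Finset.induction with
  | empty =>
    intro d0 hd0
    exact ⟨d0, hd0, le_rfl, by simp⟩
  | insert i s hi ih =>
    intro d0 hd0
    obtain ⟨d1, hd1, h1, h2⟩ := ih (fun j hj => h j (Finset.mem_insert_of_mem hj)) d0 hd0
    obtain ⟨d2, hd2, h3⟩ := h i (Finset.mem_insert_self _ _)
    obtain ⟨d3, hd3, h4, h5⟩ := hD d1 hd1 d2 hd2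
    refine ⟨d3, hd3, h1.trans h4, ?_⟩
    intro j hj
    rcases Finset.mem_insert.1 hj with rfl | hj
    · exact hup _ _ _ h5 h3
    · exact hup _ _ _ h4 (h2 j hj)

theorem stab_one {D : Set El} (hne : D.Nonempty) (hD : DirectedOn (· ≤ ·) D) {u : El}
    (hu : IsLUB D u) (r b : ℕ) : ∃ d ∈ D, d.F r b ⊆ u.F r b := by
  classical
  by_cases h : ∃ d ∈ D, (d.F r b).Finite
  · obtain ⟨d, hd, hf⟩ := h
    obtain ⟨d', hd', h1, h2⟩ := dir_finite hD (hf.toFinset.filter (fun β => β ∉ u.F r b))
      (fun β x => β ∉ x.F r b) (fun β x y hxy hx hy => hx (hxy.1 r b hy)) (by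
        intro β hβ
        rw [Finset.mem_filter] at hβ
        rw [lub_F hne hu] at hβ
        have := hβ.2
        simp only [mem_iInter, not_forall] at this
        obtain ⟨d', hd', h3⟩ := this
        exact ⟨d', hd', h3⟩) d hd
    refine ⟨d', hd', ?_⟩
    intro β hβ
    by_contra hn
    exact h2 β (by simp [hn, h1.1 r b hβ]) hβ
  · push Not at h
    obtain ⟨d, hd⟩ := hne
    refine ⟨d, hd, ?_⟩
    rw [lub_F ⟨d, hd⟩ hu]
    intro β _
    simp only [mem_iInter]
    intro d' hd'
    rw [(d'.fin r b).resolve_left (h d' hd')]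
    trivial

theorem stab {D : Set El} (hne : D.Nonempty) (hD : DirectedOn (· ≤ ·) D) {u : El}
    (hu : IsLUB D u) (R : ℕ) {d0 : El} (hd0 : d0 ∈ D) :
    ∃ d ∈ D, d0 ≤ d ∧ ∀ r ≤ R, ∀ b, d.F r b ⊆ u.F r b := by
  obtain ⟨d, hd, h1, h2⟩ := dir_finite hD
    (Finset.range (R + 1) ×ˢ Finset.range (2 ^ R))
    (fun p x => x.F p.1 p.2 ⊆ u.F p.1 p.2) (fun p x y hxy hx => (hxy.1 _ _).trans hx)
    (fun p _ => stab_one hne hD hu p.1 p.2) d0 hd0
  refine ⟨d, hd, h1, ?_⟩
  intro r hr b
  by_cases hb : b < 2 ^ R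
  · exact h2 (r, b) (by simp [hb]; omega)
  · have : 2 ^ r ≤ 2 ^ R := Nat.pow_le_pow_right (by norm_num) hr
    rw [d.out r b (by omega)]
    exact Set.empty_subset _

/-- basic neighbourhoods -/
def V (n : ℕ) (s : ℝ) (x : El) : Set El :=
  {y | (∀ r ≤ n, ∀ b, y.F r b ⊆ x.F r b) ∧ (∀ r, n < r → ((supp y.F r).ncard : ℝ) ≤ s ^ r) ∧
    y.t < s}

theorem V_upper {n : ℕ} {s : ℝ} {x y y' : El} (hy : y ∈ V n s x) (h : y ≤ y') :
    y' ∈ V n s x := by
  refine ⟨fun r hr b => (h.1 r b).trans (hy.1 r hr b), ?_, h.2.trans_lt hy.2.2⟩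
  intro r hr
  refine le_trans ?_ (hy.2.1 r hr)
  exact_mod_cast Set.ncard_le_ncard (supp_mono (h.1 r)) (supp_fin y r)

theorem V_open {D : Set El} (hne : D.Nonempty) (hD : DirectedOn (· ≤ ·) D) {u : El}
    (hu : IsLUB D u) {n : ℕ} {s : ℝ} {x : El} (h : u ∈ V n s x) : ∃ d ∈ D, d ∈ V n s x := by
  obtain ⟨d0, hd0, h0⟩ := lub_t hne hu h.2.2
  obtain ⟨R, hR⟩ := eventually_atTop.1 (d0.cost s h0)
  obtain ⟨d, hd, h1, h2⟩ := stab hne hD hu (max n R) hd0
  refine ⟨d, hd, ?_, ?_, h1.2.trans_lt h0⟩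
  · intro r hr b
    exact (h2 r (le_trans hr (le_max_left _ _)) b).trans (h.1 r hr b)
  · intro r hr
    by_cases hrR : r ≤ R
    · refine le_trans ?_ (h.2.1 r hr)
      exact_mod_cast Set.ncard_le_ncard
        (supp_mono (h2 r (le_trans hrR (le_max_right _ _)))) (supp_fin u r)
    · refine le_trans ?_ (hR r (by omega))
      exact_mod_cast Set.ncard_le_ncard (supp_mono (h1.1 r)) (supp_fin d0 r)

theorem V_add {n : ℕ} {s : ℝ} {x w : El} (h : w ∈ V n s x) :
    ∃ N0, ∀ N ≥ N0, ∀ a, add w a N ∈ V n s x := by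
  obtain ⟨s1, h1, h2⟩ := exists_between h.2.2
  have h3 : 1 ≤ s1 := w.one_le.trans h1.le
  obtain ⟨R, hR⟩ := eventually_atTop.1 ((w.cost s1 h1).and (ev_pow h3 h2))
  refine ⟨max R (n + 1), ?_⟩
  intro N hN a
  have hN1 : R ≤ N := le_trans (le_max_left _ _) hN
  have hN2 : n + 1 ≤ N := le_trans (le_max_right _ _) hN
  refine ⟨?_, ?_, h.2.2⟩
  · intro r hr b
    change addF w a N r b ⊆ _
    rw [supp_addF_lt w a N r (by omega)]
    exact h.1 r hr b
  · intro r hr
    change ((supp (addF w a N) r).ncard : ℝ) ≤ _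
    by_cases hrN : r < N
    · have : supp (addF w a N) r = supp w.F r := by
        unfold supp
        ext b
        simp only [mem_ofPred_eq]
        rw [supp_addF_lt w a N r hrN]
      rw [this]
      exact h.2.1 r hr
    · obtain ⟨hr1, hr2⟩ := hR r (by omega)
      have h4 : ((supp (addF w a N) r).ncard : ℝ) ≤ (supp w.F r).ncard + 1 := by
        exact_mod_cast sz_addF w a N r
      have h5 : 0 ≤ s1 ^ r + 1 := by positivity
      nlinarith [Nat.cast_nonneg (α := ℝ) r]

/-- `l` belongs to its neighbourhoods for large `n`. -/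
theorem self_mem_V {l : El} {s : ℝ} (hs : l.t < s) : ∃ n0, ∀ n ≥ n0, l ∈ V n s l := by
  obtain ⟨R, hR⟩ := eventually_atTop.1 (l.cost s hs)
  refine ⟨R, ?_⟩
  intro n hn
  exact ⟨fun r _ b => subset_rfl, fun r hr => hR r (by omega), hs⟩

/-! ### `InL` is closed under directed suprema -/

theorem E_lub {d : ℕ → El} {l : El} (hm : Monotone d) (hs : IsLUB (Set.range d) l) (a : Lab) :
    IsLUB (Set.range fun j => add (d j) a j) l := by
  constructor
  · rintro _ ⟨j, rfl⟩
    exact (add_le _ _ _).trans (hs.1 ⟨j, rfl⟩)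
  · intro w hw
    apply hs.2
    rintro _ ⟨j, rfl⟩
    refine ⟨?_, ?_⟩
    · intro r b β hβ
      have h1 := (hw ⟨max j (r + 1), rfl⟩).1 r b hβ
      change β ∈ addF _ _ _ r b at h1
      rw [supp_addF_lt _ _ _ r (by omega)] at h1
      exact (hm (le_max_left j (r + 1))).1 r b h1
    · exact (hw ⟨j, rfl⟩).2

theorem label_key {y y' : El} {a a' : Lab} {N N' : ℕ} (h : add y a N ≤ add y' a' N')
    (hk : kk y = kk y') : a' = a ∨ ∃ r b, (y.F r b).Finite ∧ a' ∈ y.F r b := by
  obtain ⟨r, hr1, hr2⟩ := ((kk_mem y).2.and (eventually_ge_atTop N')).exists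
  have h1 : a' ∈ (add y' a' N').F r (kk y r) := Or.inr ⟨rfl, hr2, by rw [hk]⟩
  rcases h.1 r _ h1 with h2 | ⟨h2, _, _⟩
  · exact Or.inr ⟨r, _, hr1, h2⟩
  · exact Or.inl h2

theorem InL_rep {x : El} (hx : InL x) : ∃ (tag : Option ℕ) (d : ℕ → El) (j : ℕ),
    x = add (d j) (lab tag d) j ∧ (tag = some j ∨ (tag = none ∧ ∃ l, InL l ∧ Monotone d ∧
      IsLUB (Set.range d) l ∧ ∀ i, kk (d i) = kk (d 0))) := by
  cases hx with
  | single y N => exact ⟨some N, fun _ => y, N, rfl, Or.inl rfl⟩
  | seq d l hl hm hs hk j => exact ⟨none, d, j, rfl, Or.inr ⟨rfl, l, hl, hm, hs, hk⟩⟩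

theorem InL_sup {D : Set El} (hne : D.Nonempty) (hD : DirectedOn (· ≤ ·) D)
    (hL : ∀ x ∈ D, InL x) {u : El} (hu : IsLUB D u) : InL u := by
  classical
  have hrep : ∀ x : D, ∃ (tag : Option ℕ) (d : ℕ → El) (j : ℕ),
    (x : El) = add (d j) (lab tag d) j ∧ (tag = some j ∨ (tag = none ∧ ∃ l, InL l ∧ Monotone d ∧
      IsLUB (Set.range d) l ∧ ∀ i, kk (d i) = kk (d 0))) := fun x => InL_rep (hL x x.2)
  choose tag d j hx hcase using hrep
  -- minimal branch
  obtain ⟨x0, hx0D, hx0⟩ : ∃ x0 ∈ D, ∀ x ∈ D, ¬ WellOrderingRel (kk x) (kk x0) := by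
    have hne' : (kk '' D).Nonempty := hne.image _
    obtain ⟨x0, hx0, he⟩ := wfw.min_mem (kk '' D) hne'
    refine ⟨x0, hx0, ?_⟩
    intro x hx
    rw [he]
    exact wfw.not_lt_min _ (Set.mem_image_of_mem _ hx)
  have hkk : ∀ x ∈ D, x0 ≤ x → kk x = kk x0 := by
    intro x hxD hle
    rcases trichotomous_of WellOrderingRel (kk x) (kk x0) with h | h | h
    · exact absurd h (hx0 x hxD)
    · exact h
    · exact absurd h (kk_mono hle)
  -- minimal label
  have hne1 : ({x : D | x0 ≤ (x : El)}).Nonempty := ⟨⟨x0, hx0D⟩, by simp⟩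
  obtain ⟨x1, hx1, hmin⟩ : ∃ x1 : D, x0 ≤ (x1 : El) ∧ ∀ x : D, x0 ≤ (x : El) →
      ¬ Child (lab (tag x) (d x)) (lab (tag x1) (d x1)) := by
    have hne' := hne1.image (fun x : D => lab (tag x) (d x))
    obtain ⟨x1, hx1, he⟩ := child_wf.min_mem _ hne'
    refine ⟨x1, hx1, ?_⟩
    intro x hx
    simp only at he
    rw [he]
    exact child_wf.not_lt_min _ (Set.mem_image_of_mem (fun x : D => lab (tag x) (d x)) hx)
  have hlab : ∀ x : D, (x1 : El) ≤ x → tag x = tag x1 ∧ d x = d x1 := by
    intro x hle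
    have h0x : x0 ≤ (x : El) := hx1.trans hle
    have hk : kk (d x1 (j x1)) = kk (d x (j x)) := by
      have e1 : kk (x1 : El) = kk (d x1 (j x1)) := by
        conv_lhs => rw [hx x1]
        exact kk_add _ _ _
      have e2 : kk (x : El) = kk (d x (j x)) := by
        conv_lhs => rw [hx x]
        exact kk_add _ _ _
      rw [← e1, ← e2, hkk _ x.2 h0x, hkk _ x1.2 hx1]
    have hle' : add (d x1 (j x1)) (lab (tag x1) (d x1)) (j x1)
        ≤ add (d x (j x)) (lab (tag x) (d x)) (j x) := by
      rw [← hx x1, ← hx x]; exact hle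
    rcases label_key hle' hk with h | ⟨r, b, hf, hm⟩
    · exact lab_inj h
    · exact absurd (lab_child hf hm) (hmin x h0x)
  -- every element of `D` is below one above `x1`
  have hcof : ∀ w ∈ D, ∃ v : D, w ≤ v ∧ (x1 : El) ≤ v := by
    intro w hw
    obtain ⟨v, hv, h1, h2⟩ := hD w hw x1 x1.2
    exact ⟨⟨v, hv⟩, h1, h2⟩
  rcases hcase x1 with htag | ⟨htag, l, hl, hm, hs, hkd⟩
  · -- constant case
    have hall : ∀ x : D, (x1 : El) ≤ x → (x : El) = x1 := by
      intro x hle
      obtain ⟨e1, e2⟩ := hlab x hle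
      have htx : tag x = some (j x) := by
        rcases hcase x with h | ⟨h, _⟩
        · exact h
        · rw [e1, htag] at h
          exact absurd h (by simp)
      have hj : j x = j x1 := by
        rw [e1, htag] at htx
        exact (Option.some.inj htx).symm
      rw [hx x, e1, e2, hj, ← hx x1]
    have hu1 : u = x1 := by
      apply hu.unique
      refine ⟨?_, fun w hw => hw x1.2⟩
      intro w hw
      obtain ⟨v, h1, h2⟩ := hcof w hw
      rw [hall v h2] at h1
      exact h1
    rw [hu1]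
    exact hL _ x1.2
  · -- sequence case
    have hE : ∀ x : D, (x1 : El) ≤ x → (x : El) = add (d x1 (j x)) (lab none (d x1)) (j x) := by
      intro x hle
      obtain ⟨e1, e2⟩ := hlab x hle
      conv_lhs => rw [hx x]
      rw [e1, e2, htag]
    have hmono : ∀ {i k : ℕ}, i ≤ k → add (d x1 i) (lab none (d x1)) i
        ≤ add (d x1 k) (lab none (d x1)) k := by
      intro i k hik
      exact add_mono (hm hik) (by rw [hkd i, hkd k]) _ hik
    by_cases hbdd : ∃ M, ∀ x : D, (x1 : El) ≤ x → j x ≤ M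
    · -- bounded: there is a maximum
      obtain ⟨x2, hx2, hmax⟩ : ∃ x2 : D, (x1 : El) ≤ x2 ∧ ∀ x : D, (x1 : El) ≤ x → j x ≤ j x2 := by
        obtain ⟨M, hM⟩ := hbdd
        have hfin : (j '' {x : D | (x1 : El) ≤ x}).Finite :=
          (Set.finite_Iic M).subset (by rintro _ ⟨x, hx, rfl⟩; exact hM x hx)
        have hn : (j '' {x : D | (x1 : El) ≤ x}).Nonempty := ⟨_, x1, le_refl (x1 : El), rfl⟩
        obtain ⟨m, ⟨x2, hx2, rfl⟩, h3⟩ := hfin.exists_maximalFor id _ hn
        refine ⟨x2, hx2, ?_⟩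
        intro x hx
        rcases le_total (j x) (j x2) with h | h
        · exact h
        · exact h3 ⟨x, hx, rfl⟩ h
      have hu2 : u = x2 := by
        apply hu.unique
        refine ⟨?_, fun w hw => hw x2.2⟩
        intro w hw
        obtain ⟨v, h1, h2⟩ := hcof w hw
        refine h1.trans ?_
        rw [hE v h2, hE x2 hx2]
        exact hmono (hmax v h2)
      rw [hu2]
      exact hL _ x2.2
    · push Not at hbdd
      have hul : u = l := by
        apply hu.unique
        refine ⟨?_, ?_⟩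
        · intro w hw
          obtain ⟨v, h1, h2⟩ := hcof w hw
          refine h1.trans ?_
          rw [hE v h2]
          exact (add_le _ _ _).trans (hs.1 ⟨_, rfl⟩)
        · intro w hw
          apply (E_lub hm hs (lab none (d x1))).2
          rintro _ ⟨i, rfl⟩
          obtain ⟨x, hx', hi⟩ := hbdd i
          refine le_trans ?_ (hw x.2)
          rw [hE x hx']
          exact hmono hi.le
      rw [hul]
      exact hl

/-! ### meets -/

noncomputable def meet (x y : El) : El where
  F := fun r b => x.F r b ∪ y.F r b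
  t := max x.t y.t
  fin := by
    intro r b
    rcases x.fin r b with h | h
    · rcases y.fin r b with h' | h'
      · exact Or.inl (h.union h')
      · right; rw [h', union_univ]
    · right; rw [h, univ_union]
  out := by
    intro r b hb
    rw [x.out r b hb, y.out r b hb, empty_union]
  one_le := x.one_le.trans (le_max_left _ _)
  lt_two := max_lt x.lt_two y.lt_two
  cost := by
    intro s hs
    obtain ⟨s1, h1, h2⟩ := exists_between hs
    have h3 : 1 ≤ s1 := x.one_le.trans ((le_max_left _ _).trans h1.le)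
    filter_upwards [x.cost s1 ((le_max_left _ _).trans_lt h1),
      y.cost s1 ((le_max_right _ _).trans_lt h1), ev_pow h3 h2, eventually_ge_atTop 1]
      with r hx hy hr hr1
    have hsub : supp (fun r b => x.F r b ∪ y.F r b) r ⊆ supp x.F r ∪ supp y.F r := by
      intro b hb
      rcases hb with ⟨β, hβ | hβ⟩
      · exact Or.inl ⟨β, hβ⟩
      · exact Or.inr ⟨β, hβ⟩
    have h4 : ((supp (fun r b => x.F r b ∪ y.F r b) r).ncard : ℝ) ≤
        (supp x.F r).ncard + (supp y.F r).ncard := by
      exact_mod_cast (Set.ncard_le_ncard hsub ((supp_fin x r).union (supp_fin y r))).trans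
        (Set.ncard_union_le _ _)
    have h5 : 0 ≤ s1 ^ r := by positivity
    have h6 : (1 : ℝ) ≤ r := by exact_mod_cast hr1
    nlinarith

theorem meet_le_left (x y : El) : meet x y ≤ x :=
  ⟨fun _ _ => subset_union_left, le_max_left _ _⟩

theorem meet_le_right (x y : El) : meet x y ≤ y :=
  ⟨fun _ _ => subset_union_right, le_max_right _ _⟩

/-- infimum of a fast sequence -/
noncomputable def tailInf (y : ℕ → El) (l : El) (s : ℕ → ℝ) (n : ℕ → ℕ)
    (hs : ∀ i, l.t < s i) (hs2 : ∀ i, s i < 2) (hsa : Antitone s)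
    (hyl : ∀ i, y i ≤ l) (hn : ∀ i, i ≤ n i)
    (hy1 : ∀ i, ∀ r ≤ n i, ∀ b, (y i).F r b = l.F r b)
    (hy2 : ∀ i, ∀ r, n i < r → ((supp (y i).F r).ncard : ℝ) ≤ s i ^ r + (supp l.F r).ncard + 1)
    (j : ℕ) : El where
  F := fun r b => ⋃ i ≥ j, (y i).F r b
  t := s j
  fin := by
    intro r b
    by_cases h : ∃ i ≥ j, (y i).F r b = Set.univ
    · obtain ⟨i, hi, h⟩ := h
      right
      rw [Set.eq_univ_iff_forall]
      intro β
      simp only [mem_iUnion]
      refine ⟨i, hi, ?_⟩
      rw [h]; trivial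
    · push Not at h
      have hfin : ∀ i ≥ j, ((y i).F r b).Finite := fun i hi => ((y i).fin r b).resolve_right (h i hi)
      left
      have hl : (l.F r b).Finite := (hfin j le_rfl).subset ((hyl j).1 r b)
      have hsub : (⋃ i ≥ j, (y i).F r b) ⊆ l.F r b ∪ ⋃ i ∈ {i | j ≤ i ∧ i < r}, (y i).F r b := by
        intro β hβ
        simp only [mem_iUnion] at hβ
        obtain ⟨i, hi, hβ⟩ := hβ
        by_cases hir : i < r
        · right
          simp only [mem_iUnion]
          exact ⟨i, ⟨hi, hir⟩, hβ⟩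
        · left
          rw [← hy1 i r (by have := hn i; omega) b]
          exact hβ
      refine Set.Finite.subset (hl.union ?_) hsub
      apply Set.Finite.biUnion
      · exact (Set.finite_Iio r).subset (fun i hi => hi.2)
      · intro i hi
        exact hfin i hi.1
  out := by
    intro r b hb
    apply Set.eq_empty_of_subset_empty
    apply Set.iUnion₂_subset
    intro i _
    rw [(y i).out r b hb]
  one_le := l.one_le.trans (hs j).le
  lt_two := hs2 j
  cost := by
    intro s' hs'
    obtain ⟨s1, h1, h2⟩ := exists_between hs'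
    have hsj : 1 ≤ s j := l.one_le.trans (hs j).le
    have hs1 : 1 ≤ s1 := hsj.trans h1.le
    filter_upwards [l.cost (s j) (hs j), ev_pow hsj h1, ev_pow hs1 h2, eventually_ge_atTop 1]
      with r hl hr1 hr2 hr3
    have hr3' : (1 : ℝ) ≤ r := by exact_mod_cast hr3
    have hpos : 0 ≤ s j ^ r := by positivity
    have hpos1 : 0 ≤ s1 ^ r := by positivity
    have hsub : supp (fun r b => ⋃ i ≥ j, (y i).F r b) r ⊆
        supp l.F r ∪ ⋃ i ∈ Finset.range r, (if j ≤ i then supp (y i).F r else ∅) := by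
      rintro b ⟨β, hβ⟩
      simp only [mem_iUnion] at hβ
      obtain ⟨i, hi, hβ⟩ := hβ
      by_cases hir : i < r
      · right
        simp only [mem_iUnion]
        refine ⟨i, Finset.mem_range.2 hir, ?_⟩
        rw [if_pos hi]
        exact ⟨β, hβ⟩
      · left
        rw [hy1 i r (by have := hn i; omega) b] at hβ
        exact ⟨β, hβ⟩
    have hfin : (supp l.F r ∪ ⋃ i ∈ Finset.range r,
        (if j ≤ i then supp (y i).F r else ∅)).Finite := by
      apply (supp_fin l r).union
      apply Set.Finite.biUnion (Finset.finite_toSet _)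
      intro i _
      split_ifs
      · exact supp_fin _ _
      · exact Set.finite_empty
    have h3 : (supp (fun r b => ⋃ i ≥ j, (y i).F r b) r).ncard ≤
        (supp l.F r).ncard + ∑ i ∈ Finset.range r, (if j ≤ i then supp (y i).F r else ∅).ncard :=
      (Set.ncard_le_ncard hsub hfin).trans ((Set.ncard_union_le _ _).trans
        (Nat.add_le_add_left (Finset.set_ncard_biUnion_le _ _) _))
    have h4 : ((supp (fun r b => ⋃ i ≥ j, (y i).F r b) r).ncard : ℝ) ≤
        (supp l.F r).ncard +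
          ∑ i ∈ Finset.range r, ((if j ≤ i then supp (y i).F r else ∅).ncard : ℝ) := by
      exact_mod_cast h3
    have h5 : ∀ i ∈ Finset.range r, ((if j ≤ i then supp (y i).F r else ∅).ncard : ℝ) ≤
        2 * s j ^ r + 1 := by
      intro i _
      split_ifs with hji
      · by_cases hir : r ≤ n i
        · have : supp (y i).F r = supp l.F r := by
            unfold supp
            ext b
            simp only [mem_ofPred_eq]
            rw [hy1 i r hir b]
          rw [this]
          linarith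
        · have h6 := hy2 i r (by omega)
          have h7 : s i ^ r ≤ s j ^ r := by
            apply pow_le_pow_left₀ _ (hsa hji)
            have := hs i
            have := l.one_le
            linarith
          linarith
      · simp only [Set.ncard_empty, Nat.cast_zero]
        positivity
    have h6 := Finset.sum_le_sum h5
    rw [Finset.sum_const, Finset.card_range, nsmul_eq_mul] at h6
    have h7 : ((supp (fun r b => ⋃ i ≥ j, (y i).F r b) r).ncard : ℝ) ≤
        s j ^ r + r * (2 * s j ^ r + 1) := by linarith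
    have h8 : s j ^ r + r * (2 * s j ^ r + 1) ≤ 2 * (((r : ℝ) + 1) * (s j ^ r + 1)) := by
      nlinarith
    have h9 : 2 * s1 ^ r ≤ s' ^ r := by
      refine le_trans ?_ hr2
      nlinarith
    linarith

/-- Key lemma: the sets `V n s l` form a neighbourhood base of `l` in the Scott topology of `L`. -/
theorem V_base (U : Set El)
    (hup : ∀ y y', InL y → InL y' → y ≤ y' → y ∈ U → y' ∈ U)
    (hin : ∀ D : Set El, D.Nonempty → DirectedOn (· ≤ ·) D → (∀ x ∈ D, InL x) →
      ∀ u, IsLUB D u → u ∈ U → ∃ d ∈ D, d ∈ U)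
    {l : El} (hl : InL l) (hlU : l ∈ U) :
    ∃ n s, l.t < s ∧ s < 2 ∧ l ∈ V n s l ∧ ∀ y, InL y → y ∈ V n s l → y ∈ U := by
  classical
  by_contra hcon
  push Not at hcon
  set s : ℕ → ℝ := fun i => l.t + (2 - l.t) / (i + 2) with hsdef
  have h2l : 0 < 2 - l.t := by linarith [l.lt_two]
  have hs : ∀ i, l.t < s i := by
    intro i
    simp only [hsdef]
    have : 0 < (2 - l.t) / ((i : ℝ) + 2) := by positivity
    linarith
  have hs2 : ∀ i, s i < 2 := by
    intro i
    simp only [hsdef]
    have : (2 - l.t) / ((i : ℝ) + 2) < 2 - l.t := by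
      rw [div_lt_iff₀ (by positivity)]
      nlinarith [Nat.cast_nonneg (α := ℝ) i]
    linarith
  have hsa : Antitone s := by
    intro i i' hi
    simp only [hsdef]
    have : (2 - l.t) / ((i' : ℝ) + 2) ≤ (2 - l.t) / ((i : ℝ) + 2) := by
      apply div_le_div_of_nonneg_left h2l.le (by positivity)
      have : (i : ℝ) ≤ i' := by exact_mod_cast hi
      linarith
    linarith
  choose n0 hn0 using fun i => self_mem_V (hs i)
  set n : ℕ → ℕ := fun i => max i (n0 i) with hndef
  have hn : ∀ i, i ≤ n i := fun i => le_max_left _ _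
  have hnV : ∀ i, l ∈ V (n i) (s i) l := fun i => hn0 i _ (le_max_right _ _)
  choose c hcL hcV hcU using fun i => hcon (n i) (s i) (hs i) (hs2 i) (hnV i)
  set w : ℕ → El := fun i => meet (c i) l with hwdef
  set y : ℕ → El := fun i => add (w i) (lab (some (n i + 1)) (fun _ => w i)) (n i + 1) with hydef
  have hyL : ∀ i, InL (y i) := fun i => InL.single _ _
  have hyc : ∀ i, y i ≤ c i := fun i => (add_le _ _ _).trans (meet_le_left _ _)
  have hyl : ∀ i, y i ≤ l := fun i => (add_le _ _ _).trans (meet_le_right _ _)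
  have hyU : ∀ i, y i ∉ U := fun i h => hcU i (hup _ _ (hyL i) (hcL i) (hyc i) h)
  have hy1 : ∀ i, ∀ r ≤ n i, ∀ b, (y i).F r b = l.F r b := by
    intro i r hr b
    change addF _ _ _ r b = _
    rw [supp_addF_lt _ _ _ _ (by omega)]
    change (c i).F r b ∪ l.F r b = _
    exact Set.union_eq_self_of_subset_left ((hcV i).1 r hr b)
  have hy2 : ∀ i, ∀ r, n i < r →
      ((supp (y i).F r).ncard : ℝ) ≤ s i ^ r + (supp l.F r).ncard + 1 := by
    intro i r hr
    have h1 : (supp (y i).F r).ncard ≤ (supp (w i).F r).ncard + 1 := sz_addF _ _ _ _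
    have hsub : supp (w i).F r ⊆ supp (c i).F r ∪ supp l.F r := by
      rintro b ⟨β, hβ | hβ⟩
      · exact Or.inl ⟨β, hβ⟩
      · exact Or.inr ⟨β, hβ⟩
    have h2 : (supp (w i).F r).ncard ≤ (supp (c i).F r).ncard + (supp l.F r).ncard :=
      (Set.ncard_le_ncard hsub ((supp_fin _ r).union (supp_fin _ r))).trans (Set.ncard_union_le _ _)
    have h3 : ((supp (y i).F r).ncard : ℝ) ≤
        (supp (c i).F r).ncard + (supp l.F r).ncard + 1 := by exact_mod_cast h1.trans (by omega)
    have h4 := (hcV i).2.1 r hr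
    linarith
  set d : ℕ → El := tailInf y l s n hs hs2 hsa hyl hn hy1 hy2 with hddef
  have hdy : ∀ j, d j ≤ y j := by
    intro j
    refine ⟨fun r b => ?_, ?_⟩
    · intro β hβ
      change β ∈ ⋃ i ≥ j, (y i).F r b
      simp only [mem_iUnion]
      exact ⟨j, le_rfl, hβ⟩
    · change max (c j).t l.t ≤ s j
      exact max_le (hcV j).2.2.le (hs j).le
  have hdm : Monotone d := by
    intro j j' hj
    refine ⟨fun r b β hβ => ?_, hsa hj⟩
    change β ∈ ⋃ i ≥ j, (y i).F r b
    change β ∈ ⋃ i ≥ j', (y i).F r b at hβ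
    simp only [mem_iUnion] at hβ ⊢
    obtain ⟨i, hi, h⟩ := hβ
    exact ⟨i, le_trans hj hi, h⟩
  have hdl : ∀ J, IsLUB (Set.range fun j => d (J + j)) l := by
    intro J
    constructor
    · rintro _ ⟨j, rfl⟩
      exact (hdy _).trans (hyl _)
    · intro v hv
      refine ⟨?_, ?_⟩
      · intro r b β hβ
        have h1 := (hv ⟨r, rfl⟩).1 r b hβ
        change β ∈ ⋃ i ≥ J + r, (y i).F r b at h1
        simp only [mem_iUnion] at h1
        obtain ⟨i, hi, h⟩ := h1
        rw [hy1 i r (by have := hn i; omega) b] at h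
        exact h
      · by_contra hlt
        push Not at hlt
        obtain ⟨N, hN⟩ := exists_nat_gt ((2 - l.t) / (v.t - l.t))
        have hvl : 0 < v.t - l.t := by linarith
        have h1 : v.t ≤ s (J + N) := (hv ⟨N, rfl⟩).2
        have h2 : (2 - l.t) / (((J + N : ℕ) : ℝ) + 2) < v.t - l.t := by
          rw [div_lt_iff₀ (by positivity)]
          rw [div_lt_iff₀ hvl] at hN
          push_cast
          have : (0 : ℝ) ≤ J := Nat.cast_nonneg _
          nlinarith
        simp only [hsdef] at h1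
        linarith
  -- stabilise the branch
  obtain ⟨J, hJ⟩ : ∃ J, ∀ j, kk (d (J + j)) = kk (d J) := by
    obtain ⟨J, hJ⟩ := wfw.min_mem (Set.range fun j => kk (d j)) ⟨_, 0, rfl⟩
    refine ⟨J, ?_⟩
    intro j
    rcases trichotomous_of WellOrderingRel (kk (d (J + j))) (kk (d J)) with h | h | h
    · simp only at hJ
      rw [hJ] at h
      exact absurd h (wfw.not_lt_min (Set.range fun j => kk (d j)) ⟨J + j, rfl⟩)
    · exact h
    · exact absurd h (kk_mono (hdm (Nat.le_add_right J j)))
  set d' : ℕ → El := fun j => d (J + j) with hd'def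
  have hd'm : Monotone d' := fun i j hij => hdm (Nat.add_le_add_left hij J)
  have hk' : ∀ j, kk (d' j) = kk (d' 0) := by
    intro j
    simp only [hd'def]
    rw [hJ j, hJ 0]
  have he := E_lub hd'm (hdl J) (lab none d')
  have hem : Monotone (fun j => add (d' j) (lab none d') j) := by
    intro i j hij
    exact add_mono (hd'm hij) (by rw [hk' i, hk' j]) _ hij
  obtain ⟨_, ⟨j, rfl⟩, hj⟩ := hin (Set.range fun j => add (d' j) (lab none d') j) ⟨_, 0, rfl⟩
    (by
      rintro _ ⟨i, rfl⟩ _ ⟨j, rfl⟩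
      exact ⟨_, ⟨max i j, rfl⟩, hem (le_max_left _ _), hem (le_max_right _ _)⟩)
    (by
      rintro _ ⟨j, rfl⟩
      exact InL.seq d' l hl hd'm (hdl J) hk' j) l he hlU
  have hle : add (d' j) (lab none d') j ≤ y (J + j) := (add_le _ _ _).trans (hdy _)
  exact hyU _ (hup _ _ (InL.seq d' l hl hd'm (hdl J) hk' j) (hyL _) hle hj)

/-! ### The dcpo `L` -/

abbrev L : Type := {x : El // InL x}

instance topL : TopologicalSpace L := Topology.scott L Set.univ

instance scottL : Topology.IsScott L Set.univ := ⟨rfl⟩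

theorem lift_sup {D : Set L} (hne : D.Nonempty) (hD : DirectedOn (· ≤ ·) D) :
    ∃ u : L, IsLUB D u ∧ IsLUB (Subtype.val '' D) (u : El) := by
  have hne' : (Subtype.val '' D).Nonempty := hne.image _
  have hD' : DirectedOn (· ≤ ·) (Subtype.val '' D) := by
    rintro _ ⟨x, hx, rfl⟩ _ ⟨y, hy, rfl⟩
    obtain ⟨z, hz, h1, h2⟩ := hD x hx y hy
    exact ⟨z, ⟨z, hz, rfl⟩, h1, h2⟩
  have hu := isLUB_supD (Subtype.val '' D) hne'
  have hL : InL (supD (Subtype.val '' D) hne') :=
    InL_sup hne' hD' (by rintro _ ⟨x, _, rfl⟩; exact x.2) hu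
  refine ⟨⟨_, hL⟩, ⟨?_, ?_⟩, hu⟩
  · intro x hx
    exact hu.1 ⟨x, hx, rfl⟩
  · intro w hw
    apply hu.2
    rintro _ ⟨x, hx, rfl⟩
    exact hw hx

theorem lub_val {D : Set L} (hne : D.Nonempty) (hD : DirectedOn (· ≤ ·) D) {u : L}
    (hu : IsLUB D u) : IsLUB (Subtype.val '' D) (u : El) := by
  obtain ⟨v, h1, h2⟩ := lift_sup hne hD
  rw [hu.unique h1]
  exact h2

theorem dir_val {D : Set L} (hD : DirectedOn (· ≤ ·) D) :
    DirectedOn (· ≤ ·) (Subtype.val '' D) := by
  rintro _ ⟨x, hx, rfl⟩ _ ⟨y, hy, rfl⟩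
  obtain ⟨z, hz, h1, h2⟩ := hD x hx y hy
  exact ⟨z, ⟨z, hz, rfl⟩, h1, h2⟩

theorem V_isOpen (n : ℕ) (s : ℝ) (x : El) : IsOpen {y : L | (y : El) ∈ V n s x} := by
  rw [Topology.IsScott.isOpen_iff_isUpperSet_and_dirSupInaccOn (D := Set.univ)]
  refine ⟨fun y y' h hy => V_upper hy h, ?_⟩
  intro D _ hne hD u hu hmem
  obtain ⟨_, ⟨d, hd, rfl⟩, h⟩ := V_open (hne.image _) (dir_val hD) (lub_val hne hD hu) hmem
  exact ⟨d, hd, h⟩

theorem V_base_L {U : Set L} (hU : IsOpen U) {l : L} (hl : l ∈ U) :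
    ∃ n s, (l : El).t < s ∧ s < 2 ∧ (l : El) ∈ V n s l ∧ ∀ y : L, (y : El) ∈ V n s l → y ∈ U := by
  rw [Topology.IsScott.isOpen_iff_isUpperSet_and_dirSupInaccOn (D := Set.univ)] at hU
  obtain ⟨n, s, h1, h2, h3, h4⟩ := V_base (Subtype.val '' U) (by
      intro y y' hy hy' hle hyU
      obtain ⟨z, hz, he⟩ := hyU
      have hzle : z ≤ (⟨y', hy'⟩ : L) := by
        change (z : El) ≤ y'
        rw [he]
        exact hle
      exact ⟨⟨y', hy'⟩, hU.1 hzle hz, rfl⟩)
    (by
      intro D hne hD hL u hu hmem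
      obtain ⟨u', hu', rfl⟩ := hmem
      have hD2 : ({x : L | (x : El) ∈ D}).Nonempty := by
        obtain ⟨x, hx⟩ := hne
        exact ⟨⟨x, hL x hx⟩, hx⟩
      have hD3 : DirectedOn (· ≤ ·) {x : L | (x : El) ∈ D} := by
        intro x hx y hy
        obtain ⟨z, hz, h1, h2⟩ := hD x hx y hy
        exact ⟨⟨z, hL z hz⟩, hz, h1, h2⟩
      have hD4 : IsLUB {x : L | (x : El) ∈ D} u' := by
        constructor
        · intro x hx
          exact hu.1 hx
        · intro w hw
          apply hu.2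
          intro x hx
          exact hw (show (⟨x, hL x hx⟩ : L) ∈ {x : L | (x : El) ∈ D} from hx)
      obtain ⟨d, hd, hdU⟩ := hU.2 (Set.mem_univ {x : L | (x : El) ∈ D}) hD2 hD3 hD4 hu'
      exact ⟨d, hd, d, hdU, rfl⟩) l.2 ⟨l, hl, rfl⟩
  refine ⟨n, s, h1, h2, h3, ?_⟩
  intro y hy
  obtain ⟨z, hz, he⟩ := h4 y y.2 hy
  rwa [← Subtype.ext he]

noncomputable def sing (y : El) (N : ℕ) : L := ⟨_, InL.single y N⟩

theorem sing_le (y : El) (N : ℕ) : (sing y N : El) ≤ y := add_le _ _ _

theorem dcpo (D : Set L) (hne : D.Nonempty) (hD : DirectedOn (· ≤ ·) D) : ∃ s, IsLUB D s := by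
  obtain ⟨u, hu, _⟩ := lift_sup hne hD
  exact ⟨u, hu⟩

theorem meet_cont (x : L) (D : Set L) (s : L) (hne : D.Nonempty) (hD : DirectedOn (· ≤ ·) D)
    (hs : IsLUB D s) (hxs : x ≤ s) : x ∈ closure {y : L | y ≤ x ∧ ∃ d ∈ D, y ≤ d} := by
  rw [mem_closure_iff]
  intro U hU hxU
  obtain ⟨n, s', h1, h2, h3, h4⟩ := V_base_L hU hxU
  have hsv := lub_val hne hD hs
  -- the meets with `x`
  have hlub : IsLUB ((fun d => meet x d) '' (Subtype.val '' D)) (x : El) := by
    constructor
    · rintro _ ⟨d, _, rfl⟩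
      exact meet_le_left _ _
    · intro w hw
      refine ⟨?_, ?_⟩
      · intro r b β hβ
        by_contra hn
        apply hn
        apply hxs.1 r b
        rw [lub_F (hne.image _) hsv]
        simp only [mem_iInter]
        intro d hd
        rcases (hw ⟨d, hd, rfl⟩).1 r b hβ with h | h
        · exact absurd h hn
        · exact h
      · by_contra hlt
        push Not at hlt
        obtain ⟨d, hd, h⟩ := lub_t (hne.image _) hsv (lt_of_le_of_lt hxs.2 hlt)
        have := (hw ⟨d, hd, rfl⟩).2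
        change w.t ≤ max (x : El).t d.t at this
        rcases le_max_iff.1 this with h' | h'
        · linarith
        · linarith
  have hdir : DirectedOn (· ≤ ·) ((fun d => meet x d) '' (Subtype.val '' D)) := by
    rintro _ ⟨d1, hd1, rfl⟩ _ ⟨d2, hd2, rfl⟩
    obtain ⟨d3, hd3, h5, h6⟩ := dir_val hD d1 hd1 d2 hd2
    refine ⟨_, ⟨d3, hd3, rfl⟩, ?_, ?_⟩
    · exact ⟨fun r b => Set.union_subset_union_right _ (h5.1 r b), max_le_max le_rfl h5.2⟩
    · exact ⟨fun r b => Set.union_subset_union_right _ (h6.1 r b), max_le_max le_rfl h6.2⟩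
  obtain ⟨_, ⟨_, ⟨d, hd, rfl⟩, rfl⟩, hV⟩ := V_open ((hne.image _).image _) hdir hlub h3
  obtain ⟨N0, hN0⟩ := V_add hV
  refine ⟨sing (meet x d) N0, h4 _ (hN0 N0 le_rfl _), ?_, d, hd, ?_⟩
  · exact (sing_le _ _).trans (meet_le_left _ _)
  · exact (sing_le _ _).trans (meet_le_right _ _)

theorem core_compact (x : L) (U : Set L) (hU : IsOpen U) (hx : x ∈ U) :
    ∃ V' : Set L, IsOpen V' ∧ x ∈ V' ∧ V' ⊆ U ∧
      ∀ 𝒲 : Set (Set L), (∀ W ∈ 𝒲, IsOpen W) → U ⊆ ⋃₀ 𝒲 →
        ∃ 𝒯 ⊆ 𝒲, 𝒯.Finite ∧ V' ⊆ ⋃₀ 𝒯 := by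
  classical
  obtain ⟨n0, s0, h1, h2, h3, h4⟩ := V_base_L hU hx
  obtain ⟨s1, h5, h6⟩ := exists_between h1
  obtain ⟨n1, hn1⟩ := self_mem_V h5
  set n := max n0 n1 with hn
  have hxV : (x : El) ∈ V n s1 x := hn1 n (le_max_right _ _)
  have hs1 : 1 ≤ s1 := (x : El).one_le.trans h5.le
  have hpow : ∀ r : ℕ, s1 ^ r ≤ s0 ^ r := fun r => pow_le_pow_left₀ (by linarith) h6.le r
  have hsub : V n s1 x ⊆ V n0 s0 x := by
    intro y hy
    refine ⟨fun r hr b => hy.1 r (hr.trans (le_max_left _ _)) b, ?_, hy.2.2.trans h6⟩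
    intro r hr
    by_cases hrn : r ≤ n
    · refine le_trans ?_ (h3.2.1 r hr)
      exact_mod_cast Set.ncard_le_ncard (supp_mono (hy.1 r hrn)) (supp_fin _ r)
    · exact (hy.2.1 r (by omega)).trans (hpow r)
  refine ⟨{y : L | (y : El) ∈ V n s1 x}, V_isOpen _ _ _, hxV, fun y hy => h4 y (hsub hy), ?_⟩
  intro 𝒲 h𝒲 hcov
  by_contra hcon
  push Not at hcon
  -- a net of bad points
  have hbad : ∀ T : Finset 𝒲, ∃ y : L, (y : El) ∈ V n s1 x ∧ ∀ W ∈ T, y ∉ (W : Set L) := by
    intro T
    have h7 := hcon (Subtype.val '' (T : Set 𝒲)) (by rintro _ ⟨W, _, rfl⟩; exact W.2)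
      ((Finset.finite_toSet T).image _)
    rw [Set.not_subset] at h7
    obtain ⟨y, hy, h8⟩ := h7
    refine ⟨y, hy, ?_⟩
    intro W hW hyW
    exact h8 ⟨W, ⟨W, hW, rfl⟩, hyW⟩
  choose y hyV hyW using hbad
  let 𝒰 : Ultrafilter (Finset 𝒲) := Ultrafilter.of atTop
  have h𝒰 : (𝒰 : Filter (Finset 𝒲)) ≤ atTop := Ultrafilter.of_le _
  -- the limit point
  set Z : ℕ → ℕ → Set Lab := fun r b => if r ≤ n then (x : El).F r b else
    if (∀ᶠ T in (𝒰 : Filter (Finset 𝒲)), ((y T : El).F r b).Nonempty) then Set.univ else ∅ with hZ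
  have hZlt : ∀ r b, n < r → 2 ^ r ≤ b → Z r b = ∅ := by
    intro r b hr hb
    simp only [hZ]
    rw [if_neg (by omega), if_neg]
    intro h7
    obtain ⟨T, hT⟩ := h7.exists
    rw [(y T : El).out r b hb] at hT
    exact Set.not_nonempty_empty hT
  have hZsz : ∀ r, n < r → ((supp Z r).ncard : ℝ) ≤ s1 ^ r := by
    intro r hr
    have hfin : (supp Z r).Finite := by
      apply (Set.finite_Iio (2 ^ r)).subset
      intro b hb
      by_contra hlt
      rw [Set.mem_Iio, not_lt] at hlt
      rw [supp, mem_ofPred_eq, hZlt r b hr hlt] at hb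
      exact Set.not_nonempty_empty hb
    have h7 : ∀ b ∈ supp Z r, ∀ᶠ T in (𝒰 : Filter (Finset 𝒲)), b ∈ supp (y T : El).F r := by
      intro b hb
      by_contra hcon2
      have hcon3 : ¬ ∀ᶠ T in (𝒰 : Filter (Finset 𝒲)), ((y T : El).F r b).Nonempty := hcon2
      rw [supp, mem_ofPred_eq] at hb
      simp only [hZ] at hb
      rw [if_neg (by omega), if_neg hcon3] at hb
      exact Set.not_nonempty_empty hb
    obtain ⟨T, hT⟩ := ((Filter.eventually_all_finite hfin).2 h7).exists
    refine le_trans ?_ ((hyV T).2.1 r hr)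
    exact_mod_cast Set.ncard_le_ncard (fun b hb => hT b hb) (supp_fin _ r)
  let z : El :=
    { F := Z
      t := s1
      fin := by
        intro r b
        simp only [hZ]
        split_ifs
        · exact (x : El).fin r b
        · exact Or.inr rfl
        · exact Or.inl Set.finite_empty
      out := by
        intro r b hb
        by_cases hr : r ≤ n
        · simp only [hZ]
          rw [if_pos hr]
          exact (x : El).out r b hb
        · exact hZlt r b (by omega) hb
      one_le := hs1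
      lt_two := h6.trans h2
      cost := by
        intro s hs
        filter_upwards [eventually_gt_atTop n] with r hr
        exact (hZsz r hr).trans (pow_le_pow_left₀ (by linarith) hs.le r) }
  have hzV : z ∈ V n0 s0 x := by
    refine ⟨?_, ?_, h6⟩
    · intro r hr b
      change Z r b ⊆ _
      simp only [hZ]
      rw [if_pos (hr.trans (le_max_left _ _))]
    · intro r hr
      change ((supp Z r).ncard : ℝ) ≤ _
      by_cases hrn : r ≤ n
      · refine le_trans ?_ (h3.2.1 r hr)
        have : supp Z r = supp (x : El).F r := by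
          unfold supp
          ext b
          simp only [mem_ofPred_eq, hZ]
          rw [if_pos hrn]
        rw [this]
      · exact (hZsz r (by omega)).trans (hpow r)
  obtain ⟨N0, hN0⟩ := V_add hzV
  have hz'U : sing z N0 ∈ U := h4 _ (hN0 N0 le_rfl _)
  obtain ⟨W, hW, hzW⟩ := hcov hz'U
  obtain ⟨m, s2, h7, h8, h9, h10⟩ := V_base_L (h𝒲 W hW) hzW
  have hzle : (sing z N0 : El) ≤ z := sing_le _ _
  have hs12 : s1 < s2 := h7
  -- eventually `y T ∈ V m s2 z'`
  have hev : ∀ᶠ T in (𝒰 : Filter (Finset 𝒲)), ∀ r ∈ Finset.range (m + 1),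
      ∀ b ∈ Finset.range (2 ^ r), (y T : El).F r b ⊆ Z r b := by
    rw [Filter.eventually_all_finset]
    intro r _
    rw [Filter.eventually_all_finset]
    intro b _
    by_cases hr : r ≤ n
    · filter_upwards with T
      simp only [hZ]
      rw [if_pos hr]
      exact (hyV T).1 r hr b
    · by_cases hT : ∀ᶠ T in (𝒰 : Filter (Finset 𝒲)), ((y T : El).F r b).Nonempty
      · filter_upwards with T
        simp only [hZ]
        rw [if_neg hr, if_pos hT]
        exact Set.subset_univ _
      · have hT' := Ultrafilter.eventually_not.2 hT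
        filter_upwards [hT'] with T hT2
        rw [Set.not_nonempty_iff_eq_empty.1 hT2]
        exact Set.empty_subset _
  have hev2 : ∀ᶠ T in (𝒰 : Filter (Finset 𝒲)), (⟨W, hW⟩ : 𝒲) ∈ T := by
    apply h𝒰
    filter_upwards [eventually_ge_atTop ({⟨W, hW⟩} : Finset 𝒲)] with T hT
    exact hT (Finset.mem_singleton_self _)
  obtain ⟨T, hT1, hT2⟩ := (hev.and hev2).exists
  refine hyW T _ hT2 (h10 (y T) ⟨?_, ?_, (hyV T).2.2.trans hs12⟩)
  · intro r hr b
    refine Set.Subset.trans ?_ (hzle.1 r b)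
    by_cases hb : b < 2 ^ r
    · exact hT1 r (Finset.mem_range.2 (by omega)) b (Finset.mem_range.2 hb)
    · rw [(y T : El).out r b (by omega)]
      exact Set.empty_subset _
  · intro r hr
    by_cases hrn : r ≤ n
    · refine le_trans ?_ (h9.2.1 r hr)
      have hsub2 : ∀ b, (y T : El).F r b ⊆ (sing z N0 : El).F r b := by
        intro b
        refine Set.Subset.trans ?_ (hzle.1 r b)
        change _ ⊆ Z r b
        simp only [hZ]
        rw [if_pos hrn]
        exact (hyV T).1 r hrn b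
      exact_mod_cast Set.ncard_le_ncard (supp_mono hsub2) (supp_fin _ r)
    · exact ((hyV T).2.1 r (by omega)).trans (pow_le_pow_left₀ (by linarith) hs12.le r)

/-- the top element of `El` (the hole) -/
noncomputable def topEl : El where
  F := fun _ _ => ∅
  t := 1
  fin := fun _ _ => Or.inl Set.finite_empty
  out := fun _ _ _ => rfl
  one_le := le_rfl
  lt_two := by norm_num
  cost := by
    intro s hs
    filter_upwards with r
    have : supp (fun _ _ => (∅ : Set Lab)) r = ∅ := by
      ext b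
      simp [supp]
    rw [this]
    simp only [Set.ncard_empty, Nat.cast_zero]
    positivity

theorem top_mem_V {n : ℕ} {s : ℝ} {x : El} (hs : x.t < s) : topEl ∈ V n s x := by
  refine ⟨fun _ _ _ => Set.empty_subset _, ?_, lt_of_le_of_lt x.one_le hs⟩
  intro r _
  have h1 := x.one_le
  have : supp topEl.F r = ∅ := by
    ext b
    simp [supp, topEl]
  rw [this]
  simp only [Set.ncard_empty, Nat.cast_zero]
  exact pow_nonneg (by linarith) r

theorem irr : IsIrreducible (Set.univ : Set L) := by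
  refine ⟨⟨sing topEl 0, trivial⟩, ?_⟩
  rintro U U' hU hU' ⟨u, _, hu⟩ ⟨u', _, hu'⟩
  obtain ⟨n, s, h1, h2, h3, h4⟩ := V_base_L hU hu
  obtain ⟨n', s', h1', h2', h3', h4'⟩ := V_base_L hU' hu'
  obtain ⟨N, hN⟩ := V_add (top_mem_V (n := n) h1)
  obtain ⟨N', hN'⟩ := V_add (top_mem_V (n := n') h1')
  refine ⟨sing topEl (max N N'), trivial, ?_, ?_⟩
  · exact h4 _ (hN _ (le_max_left _ _) _)
  · exact h4' _ (hN' _ (le_max_right _ _) _)

theorem not_top (p : L) : ∃ y : L, ¬ y ≤ p := by
  obtain ⟨tag, d, j, h, _⟩ := InL_rep p.2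
  refine ⟨sing topEl (j + 1), ?_⟩
  intro hle
  have h1 : lab tag d ∈ (p : El).F j (kk (d j) j) := by
    rw [h]
    exact Or.inr ⟨rfl, le_rfl, rfl⟩
  have h2 := hle.1 j _ h1
  rcases h2 with h3 | ⟨_, h3, _⟩
  · exact h3
  · omega

theorem not_quasiSober : ¬ QuasiSober L := by
  intro h
  obtain ⟨p, hp⟩ := h.sober irr isClosed_univ
  obtain ⟨y, hy⟩ := not_top p
  apply hy
  have : y ∈ closure {p} := by
    rw [hp.def]
    trivial
  rw [Topology.IsScott.closure_singleton] at this
  exact this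

end Pool.Agent.H81.Jia
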